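import Mathlib
import Pool.Agent.H26.Walsh3

set_option autoImplicit false

open MeasureTheory Finset Pool.Agent.H26.Walsh
open scoped NNReal

namespace Pool.Agent.Results.MP_b4b6e5_an.Answer

noncomputable def A (α : ℝ) (n : ℕ) : ℝ := (∏ i ∈ range n, (α + (i + 1))) / n.factorial

noncomputable def sigma (α : ℝ) (n : ℕ) (f : ℕ → G → ℝ) (x : G) : ℝ :=
  (A α n)⁻¹ * ∑ k ∈ Icc 1 n, A (α - 1) (n - k) * S f k x

theorem A_succ (α : ℝ) (n : ℕ) : A α (n + 1) = A α n * (1 + α / (n + 1)) := by
  rw [A, A, prod_range_succ, Nat.factorial_succ]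
  push_cast
  field_simp
  ring

theorem A_pos {α : ℝ} (h : -1 < α) (n : ℕ) : 0 < A α n :=
  div_pos (prod_pos fun i _ => by have : (0 : ℝ) ≤ i := i.cast_nonneg; linarith) (by positivity)

theorem result (α : ℝ) (h0 : 0 < α) (h1 : α < 1) :
    ¬ ∃ C : ℝ≥0, ∀ f : ℕ → G → ℝ, Martingale f F mu → Hp (1 / (1 + α)) f < ⊤ → ∀ n : ℕ,
      H26.Walsh.Lp (1 / (1 + α)) (sigma α (2 ^ n) f) ≤ C * Hp (1 / (1 + α)) f := by
  have hb : 0 < 1 - α := by linarith
  have hp := A_pos (α := α - 1) (by linarith)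
  have hd : ∀ j : ℕ, (j + 1 : ℝ) * (A (α - 1) j - A (α - 1) (j + 1)) = (1 - α) * A (α - 1) j := by
    intro j; rw [A_succ]; field_simp; ring
  have hm : ∀ j : ℕ, 0 ≤ A (α - 1) j - A (α - 1) (j + 1) := fun j =>
    nonneg_of_mul_nonneg_right ((hd j).symm ▸ (mul_pos hb (hp j)).le) (by positivity)
  have hl : ∀ j : ℕ, α * (j + 1 : ℝ) ^ (α - 1) ≤ A (α - 1) (j + 1) := by
    intro j
    induction j with
    | zero => simp [A]
    | succ j ih =>
      rw [A_succ]
      have k1 := bern hb.le (by linarith) (show (0 : ℝ) ≤ j + 1 by positivity)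
      have a0 : 0 < ((j : ℝ) + 1) ^ (1 - α) := by positivity
      have a1 : 0 < ((j : ℝ) + 1 + 1) ^ (1 - α) := by positivity
      have k2 : 0 ≤ 1 - (1 - α) / ((j : ℝ) + 1 + 1) := nonneg_of_mul_nonneg_right (a0.le.trans k1) a1
      push_cast
      rw [show 1 + (α - 1) / ((j : ℝ) + 1 + 1) = 1 - (1 - α) / (j + 1 + 1) by ring]
      refine le_trans ?_ (mul_le_mul_of_nonneg_right ih k2)
      rw [mul_assoc]
      refine mul_le_mul_of_nonneg_left ?_ h0.le
      rw [← neg_sub 1 α, Real.rpow_neg (by positivity), Real.rpow_neg (by positivity),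
        inv_le_iff_one_le_mul₀' a1, mul_left_comm, ← div_eq_inv_mul, one_le_div a0]
      exact k1
  exact core (c := (1 - α) * α) (K := 2) h0 h1 (by positivity) (q := A (α - 1))
    (e := fun j => (1 - α) * A (α - 1) j) (Q := A α)
    (antitone_nat_of_succ_le fun j => mul_le_mul_of_nonneg_left (by linarith [hm j]) hb.le)
    (fun j => by linarith [hd j, hm j]) (fun j => (hd j).le)
    (fun j => by
      rw [mul_assoc]
      exact mul_le_mul_of_nonneg_left (by linarith [hl j, hm j]) hb.le)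
    (fun n _ => A_pos (by linarith) n)
    (fun n hn => by
      induction n, hn using Nat.le_induction with
      | base => simp [A]; linarith
      | succ n _ ih =>
        rw [A_succ]
        have k1 := bern h0.le h1.le (show (0 : ℝ) ≤ n by positivity)
        have t0 : 0 ≤ α / ((n : ℝ) + 1) := by positivity
        have a1 : 0 < ((n : ℝ) + 1) ^ α := by positivity
        push_cast
        generalize α / ((n : ℝ) + 1) = t at *
        have k2 := mul_le_mul_of_nonneg_right (ih.trans (mul_le_mul_of_nonneg_left k1 two_pos.le))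
          (show 0 ≤ 1 + t by linarith)
        nlinarith [mul_nonneg a1.le (mul_nonneg t0 t0)])

end Pool.Agent.Results.MP_b4b6e5_an.Answer
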